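import Pool.Agent.Lib.MP_ab8df0_nt.B.Auto2
import Pool.Agent.Lib.MP_ab8df0_nt.P.L1D

/-! Constants, proof tree and the result of the computation. -/

set_option maxRecDepth 100000

namespace Pool.Agent.Lib.MP_ab8df0_nt.T.B11b

open Pool.Agent.Lib.MP_ab8df0_nt.B Pool.Agent.Lib.MP_ab8df0_nt.P

def vs : Cs := [([0, 1], 1), ([], 1), ([], 1), ([], 1), ([], 1), ([], 1), ([], 1), ([], 1), ([], 1), ([], 1), ([], 1), ([], 1), ([], 1), ([], 1), ([], 1), 
  ([34, -177, 611, -759, 584, -178, 22, 74, -18, 55, 3, 9], 16),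
  ([102, -876, 1971, -2085, 1260, -336, -54, 138, -114, 84, -9, 15], 8),
  ([261, -2727, 4671, -4590, 2142, -558, -342, 180, -351, 81, -45, 18], 8),
  ([-102, 876, -1971, 2085, -1260, 336, 54, -138, 114, -84, 9, -15], 4),
  ([-261, 2727, -4671, 4590, -2142, 558, 342, -180, 351, -81, 45, -18], 1),
  ([197, -774, 1689, -1793, 1146, -300, -10, 150, -75, 90, -3, 15], 1),
  ([203, -683, 2114, -2587, 1970, -566, 56, 234, -81, 173, 6, 29], 1),
  ([158, -538, 1167, -1221, 812, -224, -10, 102, -50, 66, -1, 11], 1),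
  ([25856, -92896, 241136, -274272, 198080, -56000, 3168, 24768, -9152, 17184, 368, 2848], 1),
  ([61, -367, 1241, -1540, 1130, -330, 18, 124, -59, 93, 1, 16], 1),
  ([-3104, 4816, -26256, 38032, -34688, 10848, -1696, -3616, 800, -3312, -272, -560], 1),
  ([1040, -2848, 10752, -12896, 10016, -3136, 448, 1344, -240, 992, 64, 160], 1),
  ([77660160, -80740352, 96272384, -494141440, 615907328, -213385216, -20054016, -16252928, -47382528, 40370176, 1638400, 9175040], 1),
  ([-84, 274, -957, 1221, -972, 296, -34, -114, 32, -90, -5, -15], 1),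
  ([-5024776192, 39738933248, -117595701248, 200481439744, -144653156352, 36914069504, 5460983808, -3233808384, 17003708416, -6163529728, 1522532352, -1566572544], 1),
  ([21200, -88736, 230336, -262480, 186976, -53760, 1984, 22944, -9200, 16032, 256, 2672], 1),
  ([929280, -3672064, 9234432, -10441728, 7350272, -2070528, 60416, 901120, -382464, 618496, 5120, 103424], 1),
  ([8016, -33136, 90272, -102704, 66656, -16480, 832, 8608, -4336, 5008, -224, 848], 1),
  ([118528, -231168, -650496, 1347840, -1066496, 279040, -73216, -89600, 62208, -73472, 1792, -14080], 1),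
  ([31260672, -73662464, 122224640, 684851200, -1591869440, 790102016, 10878976, 786432, -4653056, -185860096, -35323904, -33947648], 1),
  ([186, -744, 2007, -2308, 1668, -480, 26, 204, -78, 144, 3, 24], 8),
  ([-34, 292, -657, 695, -420, 112, 18, -46, 38, -28, 3, -5], 16),
  ([-102, 876, -1971, 2085, -1260, 336, 54, -138, 114, -84, 9, -15], 16),
  ([-87, 909, -1557, 1530, -714, 186, 114, -60, 117, -27, 15, -6], 8),
  ([-99, 528, 2646, -4590, 4518, -1464, 420, 552, 9, 480, 54, 78], 8),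
  ([5, 11, 138, -185, 182, -50, 20, 26, 1, 19, 2, 3], 8),
  ([6, -54, -173, 330, -320, 116, -34, -44, -6, -38, -5, -6], 24),
  ([-50, 292, -657, 695, -420, 112, 18, -46, 38, -28, 3, -5], 16),
  ([22275, 896337, -1802799, 1835298, -915030, 238842, 131166, -67332, 147615, -33471, 18885, -7830], 14792),
  ([-26504523, 152877426, -527032974, 656783550, -495311862, 149661384, -10962720, -59133924, 20847141, -44575074, -1614090, -7461930], 636056),
  ([1894873017, -7367257545, 19538548578, -22388232061, 16148083662, -4616855610, 257565572, 1990905906, -752254683, 1395173055, 28940922, 232107327], 27350408),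
  ([-1096815278, 4274277462, -11244551031, 12844193670, -9237312000, 2635135692, -133652358, -1136766708, 439638318, -793157946, -14673855, -131920362], 27350408),
  ([-325642, 1408408, -3771101, 4334907, -3100868, 877000, -43110, -381558, 152766, -264152, -3689, -44081], 29584),
  ([36, -282, 39, 255, -408, 168, -42, -42, -12, -54, -9, -9], 4),
  ([-93, 849, -1647, 2205, -1518, 750, -138, 6, 39, -75, -3, -15], 4),
  ([91, -310, 866, -1009, 746, -220, 12, 90, -33, 66, 2, 11], 16),
  ([186, -744, 2007, -2308, 1668, -480, 26, 204, -78, 144, 3, 24], 16)]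

def c0 : EC := ⟨16, 17, 18, 19, [20, 21, 22, 23, 24, 25, 26, 27, 28, 29], [30, 21, 31, 32, 24, 33, 27, 34]⟩

def M (t0 : ℤ) (k0 : ℕ) : List Hyp := [
  .disc 1 t0 k0,
  .eq 2 (.add (.mul (.num 2) (.inv (.add (.num 1) (.mul (.var 1) (.var 15))))) (.neg (.num 1))),
  .sqr 3 (.add (.num 1) (.mul (.num 3) (.sq (.var 2)))),
  .cls (.add (.num 1) (.mul (.num 3) (.sq (.var 2)))) [],
  .cls (.mul (.var 35) (.var 3)) [],
  .sqr 4 (.add (.num 1) (.var 3)),
  .cls (.add (.num 1) (.var 3)) [],
  .cls (.mul (.add (.num 1) (.var 4)) (.var 36)) [],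
  .eq 5 (.mul (.var 37) (.add (.num 1) (.var 4))),
  .on c0 false 5 6,
  .lin 7 (.mul (.add (.num 1) (.mul (.var 1) (.var 15))) (.add (.num 1) (.mul (.num 1) (.var 15)))) (.mul (.num (-2)) (.var 15)),
  .lin 8 (.add (.var 3) (.var 40)) (.mul (.num 3) (.mul (.add (.var 2) (.var 41)) (.var 7))),
  .lin 9 (.add (.var 4) (.var 42)) (.var 8),
  .eq 10 (.mul (.var 37) (.var 9)),
  .dq 5 38 1 1 1 10,
  .lin 11 (.mul (.add (.num 1) (.mul (.var 1) (.var 15))) (.add (.num 237) (.mul (.num (-203)) (.var 15)))) (.mul (.num (-2)) (.var 15)),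
  .lin 12 (.add (.var 3) (.var 45)) (.mul (.num 3) (.mul (.add (.var 2) (.var 46)) (.var 11))),
  .lin 13 (.add (.var 4) (.var 47)) (.var 12),
  .eq 14 (.mul (.var 37) (.var 13)),
  .dq 5 43 1 (-203) 237 14]

def k0 : Cut := ⟨[], [], [], [[false, false, false, false, false, false, false, true, false, false], [false, false, false, false, false, true, false, false, false, false], [false, false, true, false, false, false, false, false, false, false], [false, false, true, false, true, false, false, false, false, false], [false, true, false, false, false, false, false, false, false, false], [false, true, false, false, false, false, false, false, true, false], [false, false, true, true, false, false, false, false, false, false], [false, true, true, true, false, true, true, false, false, false], [true, false, false, false, false, false, false, false, false, false], [true, true, false, true, true, false, true, false, false, true]], [[false, false, false, false, false, false,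 false, false, true, false], [false, false, false, false, true, false, false, false, false, false], [false, false, true, false, false, false, false, false, false, false], [false, false, true, false, false, false, true, false, false, false], [false, false, true, true, false, false, false, false, false, false], [false, true, false, false, false, false, false, false, false, false], [false, true, false, false, true, false, true, true, false, false], [true, false, false, false, false, false, false, false, false, false], [false, false, false, false, true, true, false, false, false, false], [false, true, false, true, false, false, false, true, true, true]]⟩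

def k1 : Cut := ⟨[0, 1], [], [[true, false, false, false, false, false, false, false, false, false], [true, false, true, false, false, false, false, false, false, false]], [[false, false, true, false, false, false, false, true, false, false], [false, false, false, false, false, true, false, false, false, false], [true, false, true, false, false, false, false, false, true, false], [false, false, false, false, false, true, false, false, false, true], [false, true, false, false, false, false, false, false, false, false], [false, true, false, false, false, true, true, false, false, false], [false, true, true, true, false, true, true, false, false, false], [false, true, false, true, true, false, true, false, false, true]], [[true, false, false, false, false, false, false, false, false, false], [false, false, false, false, false, false, true, false, false, false], [true, true, false, false, false, false, false, false, false, false], [true, true, false, false, false, false,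 false, true, true, false], [true, true, false, false, false, true, false, false, true, true], [false, false, false, true, false, false, false, false, false, false], [false, false, false, true, false, false, true, true, false, false], [true, true, true, false, false, false, false, false, false, false], [false, true, false, false, true, false, false, false, false, false], [false, false, false, true, false, true, false, false, false, false]]⟩

def A : List AH := [
  .ec c0 8 ([-274, 1059, -2805, 3230, -2352, 670, -42, -292, 106, -205, -5, -34], 288) ([274, -1059, 2805, -3230, 2352, -670, 42, 292, -106, 205, 5, 34], 2304) k0 k1,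
  .on c0 false 38 39,
  .on c0 false 43 44,
  .on c0 true 48 49]

theorem auto : (baseOk 14 vs && A.all (AH.ok FDL1 14 vs)) = true := by decide +kernel

def r0_1 : Tree := .set 83 [[]] (.set 84 [[]] (.set 85 [[]] (.set 86 [[ce (-2) 136 5 12 0x97dc720f47e2b96]] (.set 87 [[ce (-1) 136 4 12 0x6d615191b12e]] (.half 72 88 76 [ce 0 136 5 12 0xcd4dca21c800194] (ce (-1) 136 5 12 0xf7fdb38ff72ddca) (.fin 72 88 89 [[ce 0 136 4 12 0x7f6844200008]] (.newt 93 [[ce 0 136 5 12 0xb6cdf85e472089e, ce (-1) 136 3 11 0x73800900]] (.set 92 [[]] (.half 72 90 77 [ce (-1) 136 5 12 0xad548c52d000188] (ce 0 136 5 11 0x75f5d5239e75e) (.fin 72 90 94 [[ce (-1) 136 4 12 0x99e8802c4c84]] (.newt 98 [[ce 0 136 5 12 0xd4a072229ec3b10, ce (-1) 136 3 12 0x9d1904904]] (.set 97 [[]] (.half 72 95 76 [ce (-1) 136 5 12 0x28ac726a1857082] (ce 0 136 5 12 0x2dfd33c30d91252) (.fin 72 95 99 [[ce (-1) 136 4 12 0xd4a7c240a48e]] (.newt 103 [[ce 2 136 6 12 0xf61dc680909dd74ff9, ce (-3) 136 3 12 0xe2af708a4]] (.set 102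 [[]] (.edead 72 100 77 [false, true, false, false, false, false, false, false] [ce (-4) 136 5 12 0x2a250653da53b0e])))))))))))))))))

def r0_2 : Tree := .set 53 [[ce 0 136 8 12 0xdee0eeb75a2a18dbc83cd06b]] (.newt 54 [[ce 1 136 7 12 0x6701d452277b66b157e3b, ce (-2) 136 5 12 0x5118849b5144c05]] (.newt 57 [[ce 0 136 7 12 0xf3e4d4a1ee6754a4e8941, ce (-1) 136 5 12 0xae96195d07705f]] (.set 60 [[]] (.newt 79 [[ce 1 136 5 12 0x23030efdcca258f, ce (-2) 136 3 12 0xc6f383945]] (.set 67 [[ce 0 136 8 12 0xb4ec20d780c0f0b00868b8e1]] (.set 68 [[ce (-2) 136 6 12 0xc9cf1825e6b9623805]] (.set 69 [[ce (-1) 136 6 12 0x463d0e0cd7b83ac49f]] (.set 70 [[]] (.dent 79 74 71 false [[ce (-2) 136 4 12 0x2fdd5449498d]] [[ce 0 136 10 12 0xf01c0503e0a80e078020f8120a0101]] [[ce 0 136 9 12 0xa070001d0b0582c1803028200a1]] (.deep 72 76 77 81 82 52 3 [12] [] [] (.pnil 84) (.pnil 84) (.set 83 [[]] (.set 84 [[]] (.set 85 [[]] (.set 86 [[ce (-2) 136 5 12 0x56ed781ecbc199a]] (.set 87 [[ce (-1) 136 4 12 0xc92dff99f1e4]]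 (.half 72 88 76 [ce 0 136 5 12 0x4ac424215ce3294] (ce (-1) 136 5 12 0xc4c5fed5f78de44) (.fin 72 88 89 [[ce 0 136 4 12 0x39e64864cc00]] (.newt 93 [[ce 0 136 5 12 0x75dcfe6dcb07a82, ce (-1) 136 3 12 0x953104900]] (.set 92 [[]] (.half 72 90 77 [ce (-1) 136 5 12 0xcfede6525ce3288] (ce 0 136 5 12 0xd74c70cfabd94cc) (.fin 72 90 94 [[ce (-1) 136 4 12 0x9bea04608084]] (.newt 98 [[ce 0 136 5 12 0xd59178618a05b00, ce (-1) 136 3 12 0x9f1000904]] (.set 97 [[]] (.half 72 95 76 [ce (-1) 136 5 12 0xfb907f201410202] (ce 0 136 5 12 0x7c703af3d984ad2) (.fin 72 95 99 [[ce (-1) 136 4 12 0xfcc36c0ce48a]] (.newt 103 [[ce 2 136 6 12 0x147dd671d58d858cc5, ce (-3) 136 3 12 0x60a6748a4]] (.set 102 [[]] (.edead 72 100 77 [false, true, false, false, false, false, false, false] [ce (-4) 136 5 12 0x2a250653da53b0e]))))))))))))))))))))))))))))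

def r0_3 : Tree := .set 53 [[ce 0 136 5 12 0x52053b191d45007]] (.root 54 0 [] (ce 1 136 5 12 0x1c7580d7cab3705) (.split 52 (.set 53 [[ce 0 136 6 12 0xa88093da623da14007]] (.newt 54 [[ce 1 136 5 12 0x1ed5e6f4de14615, ce (-2) 136 3 12 0x906e31047]] (.dead 56 78 [[]] [] [ce (-1) 136 5 12 0x4dbe57a78f71451]))) (.set 53 [[ce 0 136 6 12 0xb82833bea31a0482f]] (.newt 54 [[ce 1 136 5 12 0x6a6c22cfc0b3615, ce (-2) 136 3 12 0xa72bf4d45]] (.dead 56 78 [[]] [] [ce (-1) 136 5 12 0xdd8f85ac05234d9])))) (.split 52 (.set 53 [[ce 0 136 6 12 0xa88093da623da14007]] (.newt 54 [[ce 1 136 5 12 0xe96c298f42f3e0b, ce (-2) 136 3 12 0x9022171c1]] (.dead 56 78 [[]] [] [ce (-1) 136 5 12 0xa96080cbc375611]))) (.set 53 [[ce 0 136 6 12 0xb82833bea31a0482f]] (.newt 54 [[ce 1 136 5 12 0x9dd5edb44054e0b, ce (-2) 136 3 12 0x7d66544c3]] (.root 57 0 [] (ce 0 136 6 12 0xf6c81636b03aa14099) (.dead 59 78 [[]] [] [ce (-1) 136 4 12 0x93489704ea08]) (.dead 59 78 [[]] [] [ce (-1) 136 4 12 0x93489704ea08]))))))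

def r0_0 : Tree := .set 15 [[ce (-4) 136 1 1 0x1]] (.set 16 [[ce (-3) 136 1 1 0x1]] (.set 17 [[ce (-3) 136 1 1 0x1]] (.set 18 [[ce (-2) 136 1 1 0x1]] (.set 19 [[]] (.set 20 [[]] (.set 21 [[]] (.set 22 [[]] (.set 23 [[]] (.set 24 [[]] (.set 25 [[]] (.set 26 [[]] (.set 27 [[]] (.set 28 [[]] (.set 29 [[]] (.set 30 [[]] (.set 31 [[]] (.set 32 [[]] (.set 33 [[]] (.set 34 [[]] (.set 35 [[ce (-3) 136 1 1 0x1]] (.set 36 [[ce (-4) 136 1 1 0x1]] (.set 37 [[ce (-4) 136 1 1 0x1]] (.set 38 [[ce (-3) 136 1 1 0x1]] (.set 39 [[ce (-3) 136 1 1 0x1]] (.set 40 [[ce (-3) 136 1 1 0x1]] (.set 41 [[ce (-3) 136 64 1 0xaaaaaaaaaaaaaaab]] (.set 42 [[ce (-4) 136 1 1 0x1]] (.set 43 [[ce (-3) 136 63 1 0x5070fa52cb86b709]] (.set 44 [[ce (-3) 136 62 1 0x3773be612e68579b]] (.set 45 [[ce (-3) 136 64 1 0xe979c2f06649de51]] (.set 46 [[ce (-3) 136 64 1 0xe979c2f06649de51]] (.set 47 [[ce (-4) 136 63 1 0x5070fa52cb86b709]] (.set 48 [[ce (-2) 136 1 1 0x1]] (.set 49 [[ce (-2) 136 1 1 0x1]] (.piv [20, 21, 22,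 23, 24, 25, 26, 27, 28, 29] [[ce 0 136 1 0 0x0], [ce (-3) 136 1 12 0x800], [ce (-3) 136 5 12 0x3ea56148c610a4e], [ce (-5) 136 5 12 0xe0e9aa3a1a67b06], [ce (-3) 136 5 12 0xbd38444b02b59c8], [ce (-5) 136 5 12 0x4cc88d1a14f2818], [ce (-5) 136 5 12 0x56f1ad1212f10ca], [ce (-11) 136 5 12 0xec7b74fa0af09d8], [ce (-3) 136 5 12 0x8252f5340c48de], [ce (-13) 136 5 12 0x43c7af54c67280a]] (.piv [30, 21, 31, 32, 24, 33, 27, 34] [[ce 0 136 1 0 0x0], [ce (-3) 136 1 12 0x800], [ce (-7) 136 5 12 0x3e676148c610a4e], [ce (-5) 136 5 12 0x4cc88d1a14f2818], [ce (-3) 136 5 12 0xbd38444b02b59c8], [ce (-7) 136 5 12 0x46d60c004ca209e], [ce (-11) 136 5 12 0xec7b74fa0af09d8], [ce (-11) 136 5 12 0xcd49d1c01827014]] (.piv [] [] (.disc 52 (.set 53 [[ce 0 136 1 1 0x1]] (.split 52 (.set 53 [[ce 0 136 1 1 0x1]] (.split 52 (.set 53 [[ce 0 136 1 1 0x1]] (.root 54 0 [] (ce 1 136 1 1 0x1) (.dead 56 78 [[]] [] [ce (-1) 136 4 12 0x8881f5aeafd3]) (.dead 56 78 [[]] [] [ce (-1) 136 4 12 0x8881f5aeafd3]))) (.set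 53 [[ce 0 136 5 12 0x6228ce721206201]] (.dead 55 78 [[]] [] [ce (-1) 136 5 12 0xda6d130b822100d])))) (.set 53 [[ce 0 136 4 12 0xe0e7aa838c0b]] (.split 52 (.set 53 [[ce 0 136 5 12 0x703d756b034721b]] (.root 54 0 [] (ce 1 136 5 12 0x688c9dac5ea3f95) (.split 52 (.set 53 [[ce 0 136 6 12 0x380f9729a62321c43b]] (.newt 54 [[ce 1 136 5 12 0xca1dffdf46c4e8d, ce (-2) 136 3 12 0xce5fb7561]] (.dead 56 78 [[]] [] [ce (-1) 136 5 12 0xa70641898805581]))) (.set 53 [[ce 0 136 6 12 0x9b01b78b2e1720cc23]] (.newt 54 [[ce 1 136 5 12 0x7f84fd8540e0c89, ce (-2) 136 3 12 0xa337d21e1]] (.dead 56 78 [[]] [] [ce (-1) 136 5 12 0xc68f16a00071603])))) (.split 52 (.set 53 [[ce 0 136 6 12 0x380f9729a62321c43b]] (.newt 54 [[ce 1 136 5 12 0x3e2410a4da43593, ce (-2) 136 3 12 0x563291ce7]] (.root 57 0 [] (ce 0 136 6 12 0x66d2aebe5588882a91) (.split 52 (.set 53 [[ce 0 136 7 12 0x9d01f17946ac23907083b]] (.newt 54 [[ce 1 136 6 12 0x5e0c8945999a61db33, ce (-2) 136 4 12 0x24c09ea98305]] (.newt 57 [[ce 0 136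 6 12 0x66d2aebe5588882a91, ce (-1) 136 4 12 0x1b463de8ec2f]] (.set 60 [[]] (.yrt 61 [] (ce 1 136 5 12 0x6e0b4586c6806c3) (.split 52 (.set 53 [[ce 0 136 8 12 0xce40be974a9ad8a3c81c103b]] (.newt 54 [[ce 1 136 7 12 0xfc0929222734ab175613, ce (-2) 136 5 12 0x113804bb4940c15]] (.newt 57 [[ce 0 136 7 12 0x1275d663e17b78e5cb571, ce (-1) 136 5 12 0x8ac9e1b5d8f724f]] (.set 60 [[]] (.newt 79 [[ce 1 136 5 12 0x4f1a41f7d2c07d3, ce (-2) 136 3 12 0x5bd7370e3]] (.set 62 [[ce 0 136 8 12 0xa47ca04b80c030706848584d]] (.set 63 [[ce (-2) 136 6 12 0x88470026e689203035]] (.set 64 [[ce (-1) 136 6 12 0xc4b13e0cd3b8fbcc8f]] (.set 65 [[]] (.dent 79 73 66 false [[ce (-2) 136 4 12 0x8abb7ae9830f]] [[ce 0 136 1 1 0x1]] [[ce 0 136 1 1 0x1]] (.deep 72 76 77 81 82 52 3 [12] [] [] (.pnil 84) (.pnil 84) (.set 83 [[]] (.set 84 [[]] (.set 85 [[]] (.set 86 [[ce (-2) 136 5 12 0x54dc7c1cc3c3996]] (.set 87 [[ce (-1) 136 4 12 0xe72f79b7df8a]] (.half 72 88 76 [ce 0 136 5 12 0x6dc9cc315403294] (ce (-1) 136 5 12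 0x77755e8ca11e70e) (.fin 72 88 89 [[ce 0 136 4 12 0x31ccc4640400]] (.newt 93 [[ce 0 136 5 12 0x73cdf26fc301a9e, ce (-1) 136 3 11 0x157100900]] (.set 92 [[]] (.half 72 90 77 [ce (-1) 136 5 12 0xeff10a415c83288] (ce 0 136 5 12 0x22f590a6614be1a) (.fin 72 90 94 [[ce (-1) 136 4 12 0x970408e8c00c]] (.newt 98 [[ce 0 136 5 12 0x948070108607910, ce (-1) 136 3 11 0xf5004904]] (.set 97 [[]] (.half 72 95 76 [ce (-1) 136 5 12 0x9f243d3a889639a] (ce 0 136 5 12 0xe9c554b8098205e) (.fin 72 95 99 [[ce (-1) 136 4 12 0xbaef6288ecc2]] (.newt 103 [[ce 2 136 6 12 0x9756fe1251912502cd, ce (-3) 136 3 12 0xe0e6708a4]] (.set 102 [[]] (.edead 72 100 77 [false, true, false, false, false, false, false, false] [ce (-4) 136 5 12 0x2a250653da53b0e]))))))))))))))))))))))))))))) (.set 53 [[ce 0 136 8 12 0x2e00ded7aafa5873c8dc905b]] (.newt 54 [[ce 1 136 7 12 0xde82121e384332f036643, ce (-2) 136 5 12 0xb22908eb5500c1d]] (.newt 57 [[ce 0 136 7 12 0xd256d3e7ef73602508d31, ce (-1) 136 5 12 0x4de92184dcf135f]]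 (.set 60 [[]] (.newt 79 [[ce 1 136 5 12 0xbcb341c44ac0547, ce (-2) 136 3 12 0x649b31471]] (.set 62 [[ce 0 136 8 12 0xc47cc0dbe020b040e888584d]] (.set 63 [[ce (-2) 136 6 12 0xd98d20c5aeb500381d]] (.set 64 [[ce (-1) 136 6 12 0x257d228e119cfa46bf]] (.set 65 [[]] (.dent 79 73 66 false [[ce (-2) 136 4 12 0x91db126ba125]] [[ce 0 136 10 12 0x90240b0160a83e078120b8120a0181]] [[ce 0 136 9 12 0xe010300d0b0182c180b02820121]] (.deep 72 76 77 81 82 52 3 [12] [] [] (.pnil 84) (.pnil 84) (.set 83 [[]] (.set 84 [[]] (.set 85 [[]] (.set 86 [[ce (-2) 136 5 12 0xd1cd726e57a2b8a]] (.set 87 [[ce (-1) 136 4 12 0xe763973b1fc0]] (.half 72 88 76 [ce 0 136 5 12 0xeb58a030d0e019c] (ce (-1) 136 5 12 0x716c1d97b57e698) (.fin 72 88 89 [[ce 0 136 4 12 0x730a0028c800]] (.newt 93 [[ce 0 136 5 12 0xf0fcf83d57e0892, ce (-1) 136 3 11 0x177804900]] (.set 92 [[]] (.half 72 90 77 [ce (-1) 136 5 12 0xca50ee40c0e0190] (ce 0 136 5 12 0x80fc939ded08d98) (.fin 72 90 94 [[ce (-1) 136 4 12 0x99c644ac0c04]] (.newt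 98 [[ce 0 136 5 12 0x11b1761192c5900, ce (-1) 136 3 12 0x9d5900904]] (.set 97 [[]] (.half 72 95 76 [ce (-1) 136 5 12 0x4f107c711c91302] (ce 0 136 5 12 0x7e7017c8c936b4e) (.fin 72 95 99 [[ce (-1) 136 4 12 0x9a8f0804acce]] (.newt 103 [[ce 2 136 6 12 0x753ce6809eb1d74ff9, ce (-3) 136 3 12 0x72ef748a4]] (.set 102 [[]] (.edead 72 100 77 [false, true, false, false, false, false, false, false] [ce (-4) 136 5 12 0x2a250653da53b0e]))))))))))))))))))))))))))))))))))) (.set 53 [[ce 0 136 7 12 0xfc82777f528c0b91f284b]] (.newt 54 [[ce 1 136 6 12 0x6e8a85075d9e235f2b, ce (-2) 136 4 12 0xca84d4afc301]] (.newt 57 [[ce 0 136 6 12 0x251aba3e1fbc0ba891, ce (-1) 136 4 12 0x55c4b722e06f]] (.set 60 [[]] (.yrt 61 [] (ce 1 136 5 12 0xf3a20ebd58a4513) (.split 52 (.set 53 [[ce 0 136 8 12 0x7e20ce77faca980bc87c504b]] (.newt 54 [[ce 1 136 7 12 0x97c252d2314b5ef016e6b, ce (-2) 136 5 12 0x302888ab4580c0d]] (.newt 57 [[ce 0 136 7 12 0x3205d125f86f0ce4a9101, ce (-1) 136 5 12 0x4fc92186dc7534f]] (.set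 60 [[]] (.newt 79 [[ce 1 136 5 12 0xd4b282ad44a0413, ce (-2) 136 3 12 0xf0f7a5dd3]] (.set 67 [[ce 0 136 8 12 0x14ec8087a0e070a08828b8e1]] (.set 68 [[ce (-2) 136 6 12 0xfb8928852ead02303d]] (.set 69 [[ce (-1) 136 6 12 0xe6792a8f9194ba4a8f]] (.set 70 [[]] (.dent 79 74 71 false [[ce (-2) 136 4 12 0x3e117c0b63ab]] [[ce 0 136 10 10 0xc0180a018060080e008080201]] [[ce 0 136 9 11 0x4000040c02030100c02000081]] (.deep 72 76 77 81 82 52 3 [12] [] [] (.pnil 84) (.pnil 84) r0_1))))))))))) r0_2))))))) (.dead 59 78 [[]] [] [ce (-1) 136 4 12 0x6aeb5788022e])))) (.set 53 [[ce 0 136 6 12 0x9b01b78b2e1720cc23]] (.newt 54 [[ce 1 136 5 12 0x88bd12fec027797, ce (-2) 136 3 12 0x615a76067]] (.dead 56 78 [[]] [] [ce (-1) 136 5 12 0x743d27d44653795])))))) r0_3))))))))))))))))))))))))))))))))))))))))))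

theorem r0 : run FDL1.ds FDL1.es [[ce 0 136 62 1 0x26bebcf8ec08105d]] vs.length (fullH 14 vs (M 0 0) A) r0_0 = true := by
  decide +kernel

theorem rela {K : Type} [Field K] [NumberField K] {a : K} {pl : List (Place K)} {ph : List (K →+* ℝ)}
    {w : List (IsDedekindDomain.HeightOneSpectrum (NumberField.RingOfIntegers K))}
    (hP : Pack K FDL1 a pl ph w) : cval a vs 16 = ((-2) * cval a vs 37) := by
  have h : (cval a vs 16 + (-((((-2 : ℤ) : K) * cval a vs 37)))) = 0 :=
    hP.rel vs (.add (.var 16) (.neg (.mul (.num (-2)) (.var 37)))) (by decide +kernel)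
  have h0 : cval a vs 0 = a := by simp [cval, vs, ev]
  try rw [h0] at h
  try push_cast at h
  linear_combination h

theorem relb {K : Type} [Field K] [NumberField K] {a : K} {pl : List (Place K)} {ph : List (K →+* ℝ)}
    {w : List (IsDedekindDomain.HeightOneSpectrum (NumberField.RingOfIntegers K))}
    (hP : Pack K FDL1 a pl ph w) : cval a vs 17 = (-(((cval a vs 37) ^ 2))) := by
  have h : (cval a vs 17 + (-((-(((cval a vs 37) ^ 2)))))) = 0 :=
    hP.rel vs (.add (.var 17) (.neg (.neg (.sq (.var 37))))) (by decide +kernel)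
  have h0 : cval a vs 0 = a := by simp [cval, vs, ev]
  try rw [h0] at h
  try push_cast at h
  linear_combination h

theorem relD {K : Type} [Field K] [NumberField K] {a : K} {pl : List (Place K)} {ph : List (K →+* ℝ)}
    {w : List (IsDedekindDomain.HeightOneSpectrum (NumberField.RingOfIntegers K))}
    (hP : Pack K FDL1 a pl ph w) : cval a vs 37 = (3 * (cval a vs 36 * ((1) ^ 2))) := by
  have h : (cval a vs 37 + (-((((3 : ℤ) : K) * (cval a vs 36 * ((((1 : ℤ) : K)) ^ 2)))))) = 0 :=
    hP.rel vs (.add (.var 37) (.neg (.mul (.num 3) (.mul (.var 36) (.sq (.num 1)))))) (by decide +kernel)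
  have h0 : cval a vs 0 = a := by simp [cval, vs, ev]
  try rw [h0] at h
  try push_cast at h
  linear_combination h

theorem relth {K : Type} [Field K] [NumberField K] {a : K} {pl : List (Place K)} {ph : List (K →+* ℝ)}
    {w : List (IsDedekindDomain.HeightOneSpectrum (NumberField.RingOfIntegers K))}
    (hP : Pack K FDL1 a pl ph w) : (cval a vs 15 * ((cval a vs 15) ^ 2)) = 2 := by
  have h : ((cval a vs 15 * ((cval a vs 15) ^ 2)) + (-(((2 : ℤ) : K)))) = 0 :=
    hP.rel vs (.add (.mul (.var 15) (.sq (.var 15))) (.neg (.num 2))) (by decide +kernel)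
  have h0 : cval a vs 0 = a := by simp [cval, vs, ev]
  try rw [h0] at h
  try push_cast at h
  linear_combination h

theorem relrho {K : Type} [Field K] [NumberField K] {a : K} {pl : List (Place K)} {ph : List (K →+* ℝ)}
    {w : List (IsDedekindDomain.HeightOneSpectrum (NumberField.RingOfIntegers K))}
    (hP : Pack K FDL1 a pl ph w) : (((cval a vs 51) ^ 2) * (((-1) + cval a vs 15) * ((((-1) + cval a vs 15)) ^ 2))) = 1 := by
  have h : ((((cval a vs 51) ^ 2) * ((((-1 : ℤ) : K) + cval a vs 15) * (((((-1 : ℤ) : K) + cval a vs 15)) ^ 2))) + (-(((1 : ℤ) : K)))) = 0 :=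
    hP.rel vs (.add (.mul (.sq (.var 51)) (.mul (.add (.num (-1)) (.var 15)) (.sq (.add (.num (-1)) (.var 15))))) (.neg (.num 1))) (by decide +kernel)
  have h0 : cval a vs 0 = a := by simp [cval, vs, ev]
  try rw [h0] at h
  try push_cast at h
  linear_combination h

theorem relsig {K : Type} [Field K] [NumberField K] {a : K} {pl : List (Place K)} {ph : List (K →+* ℝ)}
    {w : List (IsDedekindDomain.HeightOneSpectrum (NumberField.RingOfIntegers K))}
    (hP : Pack K FDL1 a pl ph w) : ((cval a vs 50) ^ 2) = (1 + (2 * cval a vs 51)) := by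
  have h : (((cval a vs 50) ^ 2) + (-((((1 : ℤ) : K) + (((2 : ℤ) : K) * cval a vs 51))))) = 0 :=
    hP.rel vs (.add (.sq (.var 50)) (.neg (.add (.num 1) (.mul (.num 2) (.var 51))))) (by decide +kernel)
  have h0 : cval a vs 0 = a := by simp [cval, vs, ev]
  try rw [h0] at h
  try push_cast at h
  linear_combination h

theorem relr {K : Type} [Field K] [NumberField K] {a : K} {pl : List (Place K)} {ph : List (K →+* ℝ)}
    {w : List (IsDedekindDomain.HeightOneSpectrum (NumberField.RingOfIntegers K))}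
    (hP : Pack K FDL1 a pl ph w) : cval a vs 35 = (2 * cval a vs 51) := by
  have h : (cval a vs 35 + (-((((2 : ℤ) : K) * cval a vs 51)))) = 0 :=
    hP.rel vs (.add (.var 35) (.neg (.mul (.num 2) (.var 51)))) (by decide +kernel)
  have h0 : cval a vs 0 = a := by simp [cval, vs, ev]
  try rw [h0] at h
  try push_cast at h
  linear_combination h

theorem relG0 {K : Type} [Field K] [NumberField K] {a : K} {pl : List (Place K)} {ph : List (K →+* ℝ)}
    {w : List (IsDedekindDomain.HeightOneSpectrum (NumberField.RingOfIntegers K))}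
    (hP : Pack K FDL1 a pl ph w) : (cval a vs 41 * (1 + (1 * cval a vs 15))) = (1 - (1 * cval a vs 15)) := by
  have h : ((cval a vs 41 * (((1 : ℤ) : K) + (((1 : ℤ) : K) * cval a vs 15))) + (-((((1 : ℤ) : K) + (-((((1 : ℤ) : K) * cval a vs 15))))))) = 0 :=
    hP.rel vs (.add (.mul (.var 41) (.add (.num 1) (.mul (.num 1) (.var 15)))) (.neg (.add (.num 1) (.neg (.mul (.num 1) (.var 15)))))) (by decide +kernel)
  have h0 : cval a vs 0 = a := by simp [cval, vs, ev]
  try rw [h0] at h
  try push_cast at h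
  linear_combination h

theorem relE0 {K : Type} [Field K] [NumberField K] {a : K} {pl : List (Place K)} {ph : List (K →+* ℝ)}
    {w : List (IsDedekindDomain.HeightOneSpectrum (NumberField.RingOfIntegers K))}
    (hP : Pack K FDL1 a pl ph w) : ((cval a vs 40) ^ 2) = (1 + (3 * ((cval a vs 41) ^ 2))) := by
  have h : (((cval a vs 40) ^ 2) + (-((((1 : ℤ) : K) + (((3 : ℤ) : K) * ((cval a vs 41) ^ 2)))))) = 0 :=
    hP.rel vs (.add (.sq (.var 40)) (.neg (.add (.num 1) (.mul (.num 3) (.sq (.var 41)))))) (by decide +kernel)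
  have h0 : cval a vs 0 = a := by simp [cval, vs, ev]
  try rw [h0] at h
  try push_cast at h
  linear_combination h

theorem relxi0 {K : Type} [Field K] [NumberField K] {a : K} {pl : List (Place K)} {ph : List (K →+* ℝ)}
    {w : List (IsDedekindDomain.HeightOneSpectrum (NumberField.RingOfIntegers K))}
    (hP : Pack K FDL1 a pl ph w) : ((cval a vs 42) ^ 2) = (1 + cval a vs 40) := by
  have h : (((cval a vs 42) ^ 2) + (-((((1 : ℤ) : K) + cval a vs 40)))) = 0 :=
    hP.rel vs (.add (.sq (.var 42)) (.neg (.add (.num 1) (.var 40)))) (by decide +kernel)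
  have h0 : cval a vs 0 = a := by simp [cval, vs, ev]
  try rw [h0] at h
  try push_cast at h
  linear_combination h

theorem relx0 {K : Type} [Field K] [NumberField K] {a : K} {pl : List (Place K)} {ph : List (K →+* ℝ)}
    {w : List (IsDedekindDomain.HeightOneSpectrum (NumberField.RingOfIntegers K))}
    (hP : Pack K FDL1 a pl ph w) : cval a vs 38 = (cval a vs 37 * (1 + cval a vs 42)) := by
  have h : (cval a vs 38 + (-((cval a vs 37 * (((1 : ℤ) : K) + cval a vs 42))))) = 0 :=
    hP.rel vs (.add (.var 38) (.neg (.mul (.var 37) (.add (.num 1) (.var 42))))) (by decide +kernel)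
  have h0 : cval a vs 0 = a := by simp [cval, vs, ev]
  try rw [h0] at h
  try push_cast at h
  linear_combination h

theorem relG1 {K : Type} [Field K] [NumberField K] {a : K} {pl : List (Place K)} {ph : List (K →+* ℝ)}
    {w : List (IsDedekindDomain.HeightOneSpectrum (NumberField.RingOfIntegers K))}
    (hP : Pack K FDL1 a pl ph w) : (cval a vs 46 * (237 + ((-203) * cval a vs 15))) = (237 - ((-203) * cval a vs 15)) := by
  have h : ((cval a vs 46 * (((237 : ℤ) : K) + (((-203 : ℤ) : K) * cval a vs 15))) + (-((((237 : ℤ) : K) + (-((((-203 : ℤ) : K) * cval a vs 15))))))) = 0 :=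
    hP.rel vs (.add (.mul (.var 46) (.add (.num 237) (.mul (.num (-203)) (.var 15)))) (.neg (.add (.num 237) (.neg (.mul (.num (-203)) (.var 15)))))) (by decide +kernel)
  have h0 : cval a vs 0 = a := by simp [cval, vs, ev]
  try rw [h0] at h
  try push_cast at h
  linear_combination h

theorem relE1 {K : Type} [Field K] [NumberField K] {a : K} {pl : List (Place K)} {ph : List (K →+* ℝ)}
    {w : List (IsDedekindDomain.HeightOneSpectrum (NumberField.RingOfIntegers K))}
    (hP : Pack K FDL1 a pl ph w) : ((cval a vs 45) ^ 2) = (1 + (3 * ((cval a vs 46) ^ 2))) := by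
  have h : (((cval a vs 45) ^ 2) + (-((((1 : ℤ) : K) + (((3 : ℤ) : K) * ((cval a vs 46) ^ 2)))))) = 0 :=
    hP.rel vs (.add (.sq (.var 45)) (.neg (.add (.num 1) (.mul (.num 3) (.sq (.var 46)))))) (by decide +kernel)
  have h0 : cval a vs 0 = a := by simp [cval, vs, ev]
  try rw [h0] at h
  try push_cast at h
  linear_combination h

theorem relxi1 {K : Type} [Field K] [NumberField K] {a : K} {pl : List (Place K)} {ph : List (K →+* ℝ)}
    {w : List (IsDedekindDomain.HeightOneSpectrum (NumberField.RingOfIntegers K))}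
    (hP : Pack K FDL1 a pl ph w) : ((cval a vs 47) ^ 2) = (1 + cval a vs 45) := by
  have h : (((cval a vs 47) ^ 2) + (-((((1 : ℤ) : K) + cval a vs 45)))) = 0 :=
    hP.rel vs (.add (.sq (.var 47)) (.neg (.add (.num 1) (.var 45)))) (by decide +kernel)
  have h0 : cval a vs 0 = a := by simp [cval, vs, ev]
  try rw [h0] at h
  try push_cast at h
  linear_combination h

theorem relx1 {K : Type} [Field K] [NumberField K] {a : K} {pl : List (Place K)} {ph : List (K →+* ℝ)}
    {w : List (IsDedekindDomain.HeightOneSpectrum (NumberField.RingOfIntegers K))}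
    (hP : Pack K FDL1 a pl ph w) : cval a vs 43 = (cval a vs 37 * (1 + cval a vs 47)) := by
  have h : (cval a vs 43 + (-((cval a vs 37 * (((1 : ℤ) : K) + cval a vs 47))))) = 0 :=
    hP.rel vs (.add (.var 43) (.neg (.mul (.var 37) (.add (.num 1) (.var 47))))) (by decide +kernel)
  have h0 : cval a vs 0 = a := by simp [cval, vs, ev]
  try rw [h0] at h
  try push_cast at h
  linear_combination h

theorem core {K : Type} [Field K] [NumberField K] {a : K} {pl : List (Place K)} {ph : List (K →+* ℝ)}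
    {w : List (IsDedekindDomain.HeightOneSpectrum (NumberField.RingOfIntegers K))}
    (hP : Pack K FDL1 a pl ph w) {G : Prop} (t g E xi x y dG0 dE0 dxi0 dx0 dG1 dE1 dxi1 dx1 : K)
    (hdisc : Q2 0 (t - ((0 : ℤ) : K)))
    (hG : g = ((2 * ((1 + (t * cval a vs 15)))⁻¹) - 1))
    (hE : E ^ 2 = (1 + (3 * ((g) ^ 2))))
    (hclsE : IsSquare (1 + (3 * ((g) ^ 2))))
    (hclsR : IsSquare (cval a vs 35 * E))
    (hxi : xi ^ 2 = (1 + E))
    (hclsX : IsSquare (1 + E))
    (hcls : IsSquare ((1 + xi) * cval a vs 36))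
    (hx : x = (cval a vs 37 * (1 + xi)))
    (hon : On (cval a vs 16) (cval a vs 17) x y)
    (hdG0 : ((1 + (t * cval a vs 15)) * (1 + (1 * cval a vs 15))) * dG0 = ((-2) * cval a vs 15))
    (hdE0 : (E + cval a vs 40) * dE0 = (3 * ((g + cval a vs 41) * dG0)))
    (hdxi0 : (xi + cval a vs 42) * dxi0 = dE0)
    (hdx0 : dx0 = (cval a vs 37 * dxi0))
    (hdq0n : (1 * t - 1) ≠ 0) (hdq0 : x - cval a vs 38 = (1 * t - 1) * dx0)
    (hdG1 : ((1 + (t * cval a vs 15)) * (237 + ((-203) * cval a vs 15))) * dG1 = ((-2) * cval a vs 15))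
    (hdE1 : (E + cval a vs 45) * dE1 = (3 * ((g + cval a vs 46) * dG1)))
    (hdxi1 : (xi + cval a vs 47) * dxi1 = dE1)
    (hdx1 : dx1 = (cval a vs 37 * dxi1))
    (hdq1n : (237 * t - (-203)) ≠ 0) (hdq1 : x - cval a vs 43 = (237 * t - (-203)) * dx1) :
    G := by
  refine hP.cover (fr := [t, g, E, xi, x, y, dG0, dE0, dxi0, dx0, dG1, dE1, dxi1, dx1]) (M := M) (cs := [[ce 0 136 62 1 0x26bebcf8ec08105d]]) rfl auto
    (l := [(0, 0)]) (by decide) ?_ hdisc fun tt kk hq => ?_
  · exact List.forall_mem_cons.2 ⟨⟨_, r0⟩, fun _ h => absurd h List.not_mem_nil⟩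
  · refine List.forall_mem_cons.2 ⟨?_, List.forall_mem_cons.2 ⟨?_, List.forall_mem_cons.2 ⟨?_, List.forall_mem_cons.2 ⟨?_, List.forall_mem_cons.2 ⟨?_, List.forall_mem_cons.2 ⟨?_, List.forall_mem_cons.2 ⟨?_, List.forall_mem_cons.2 ⟨?_, List.forall_mem_cons.2 ⟨?_, List.forall_mem_cons.2 ⟨?_, List.forall_mem_cons.2 ⟨?_, List.forall_mem_cons.2 ⟨?_, List.forall_mem_cons.2 ⟨?_, List.forall_mem_cons.2 ⟨?_, List.forall_mem_cons.2 ⟨?_, List.forall_mem_cons.2 ⟨?_, List.forall_mem_cons.2 ⟨?_, List.forall_mem_cons.2 ⟨?_, List.forall_mem_cons.2 ⟨?_, List.forall_mem_cons.2 ⟨?_, fun _ h => absurd h List.not_mem_nil⟩⟩⟩⟩⟩⟩⟩⟩⟩⟩⟩⟩⟩⟩⟩⟩⟩⟩⟩⟩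
    · exact hq
    · show g = ((((2 : ℤ) : K) * ((((1 : ℤ) : K) + (t * cval a vs 15)))⁻¹) + (-(((1 : ℤ) : K))))
      try push_cast
      linear_combination hG
    · show E ^ 2 = (((1 : ℤ) : K) + (((3 : ℤ) : K) * ((g) ^ 2)))
      try push_cast
      linear_combination hE
    · exact span_of_isSquare (x := (((1 : ℤ) : K) + (((3 : ℤ) : K) * ((g) ^ 2)))) ((by push_cast; ring : (((1 : ℤ) : K) + (((3 : ℤ) : K) * ((g) ^ 2))) = (1 + (3 * ((g) ^ 2)))) ▸ hclsE)
    · exact span_of_isSquare (x := (cval a vs 35 * E)) ((by push_cast; ring : (cval a vs 35 * E) = (cval a vs 35 * E)) ▸ hclsR)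
    · show xi ^ 2 = (((1 : ℤ) : K) + E)
      try push_cast
      linear_combination hxi
    · exact span_of_isSquare (x := (((1 : ℤ) : K) + E)) ((by push_cast; ring : (((1 : ℤ) : K) + E) = (1 + E)) ▸ hclsX)
    · exact span_of_isSquare (x := ((((1 : ℤ) : K) + xi) * cval a vs 36)) ((by push_cast; ring : ((((1 : ℤ) : K) + xi) * cval a vs 36) = ((1 + xi) * cval a vs 36)) ▸ hcls)
    · show x = (cval a vs 37 * (((1 : ℤ) : K) + xi))
      try push_cast
      linear_combination hx
    · exact hon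
    · show ((((1 : ℤ) : K) + (t * cval a vs 15)) * (((1 : ℤ) : K) + (((1 : ℤ) : K) * cval a vs 15))) * dG0 = (((-2 : ℤ) : K) * cval a vs 15)
      try push_cast
      linear_combination hdG0
    · show (E + cval a vs 40) * dE0 = (((3 : ℤ) : K) * ((g + cval a vs 41) * dG0))
      try push_cast
      linear_combination hdE0
    · show (xi + cval a vs 42) * dxi0 = dE0
      try push_cast
      linear_combination hdxi0
    · show dx0 = (cval a vs 37 * dxi0)
      try push_cast
      linear_combination hdx0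
    · show (((1 : ℤ) : K) * t - ((1 : ℤ) : K)) ≠ 0 ∧ x - cval a vs 38 = (((1 : ℤ) : K) * t - ((1 : ℤ) : K)) * dx0
      try push_cast
      exact ⟨by simpa using hdq0n, by linear_combination hdq0⟩
    · show ((((1 : ℤ) : K) + (t * cval a vs 15)) * (((237 : ℤ) : K) + (((-203 : ℤ) : K) * cval a vs 15))) * dG1 = (((-2 : ℤ) : K) * cval a vs 15)
      try push_cast
      linear_combination hdG1
    · show (E + cval a vs 45) * dE1 = (((3 : ℤ) : K) * ((g + cval a vs 46) * dG1))
      try push_cast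
      linear_combination hdE1
    · show (xi + cval a vs 47) * dxi1 = dE1
      try push_cast
      linear_combination hdxi1
    · show dx1 = (cval a vs 37 * dxi1)
      try push_cast
      linear_combination hdx1
    · show (((237 : ℤ) : K) * t - ((-203 : ℤ) : K)) ≠ 0 ∧ x - cval a vs 43 = (((237 : ℤ) : K) * t - ((-203 : ℤ) : K)) * dx1
      try push_cast
      exact ⟨by simpa using hdq1n, by linear_combination hdq1⟩

end Pool.Agent.Lib.MP_ab8df0_nt.T.B11b
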